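import Pool.Agent.H68.GC.OLF0
import Pool.Agent.H58.SF.PW
import Pool.Agent.H53.FC.Main
import Pool.Agent.H81.SF.PO
import Pool.Agent.H51.SF.TR

/-!
# The Olšák function on pairs
-/

set_option autoImplicit false

namespace Pool.Agent.H68.GC

open Pool.Agent.H68.BP Pool.Agent.H58.SF Pool.Agent.H53.GC Pool.Agent.H53.RG

section pw

variable {S : Type} {Ar : S → Type} [Finite S] [∀ s, Finite (Ar s)] {V : Type} {σ : Sig}

theorem pppower_strOn {𝔸 : Str σ V} {n : ℕ} (R : (s : S) → (Ar s → Fin n → V) → Prop)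
    (h : ∀ s, PPDefinable 𝔸 {z : Ar s × Fin n → V | R s (fun p i => z (p, i))}) :
    PPPower 𝔸 n (strOn R) := by
  intro l
  exact ppDefinable_comap (fun pi : Ar ((Finite.equivFin S).symm l) × Fin n =>
    ((Finite.equivFin (Ar ((Finite.equivFin S).symm l)) pi.1, pi.2) :
      Fin ((sigOf S Ar).ar l) × Fin n)) (h ((Finite.equivFin S).symm l))

end pw

theorem ols_pat {Y T : Type} {h : (Fin 6 → Y) → T} (ho : Ols h) (r : Fin 3) (x y : Y) :
    h (pat r x y) = h (pat 0 x y) := by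
  obtain ⟨e1, e2⟩ := ho x y
  have hr : r = 0 ∨ r = 1 ∨ r = 2 := by omega
  rcases hr with rfl | rfl | rfl
  · rfl
  · exact e1.symm
  · exact (e1.trans e2).symm

variable {σ : Sig} {V X : Type}

/-- The relation atom. -/
def relAt (σ : Sig) (M : ℕ) (P : Type) :
    (o : Option (Fin σ.m)) → Set (Atom σ (P ⊕ Fin (arP σ M o)))
  | none => ∅
  | some l => {Atom.rel l (fun i => Sum.inr i)}

theorem relAt_finite (M : ℕ) (P : Type) (o : Option (Fin σ.m)) : (relAt σ M P o).Finite := by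
  rcases o with _ | l
  · exact Set.finite_empty
  · exact Set.finite_singleton _

theorem relAt_holds (𝔸 : Str σ V) (M : ℕ) (P : Type) (o : Option (Fin σ.m)) (z : P → V)
    (y : Fin (arP σ M o) → V) :
    (∀ a ∈ relAt σ M P o, a.Holds 𝔸 (Sum.elim z y)) ↔ relP 𝔸 M o y := by
  rcases o with _ | l
  · exact ⟨fun _ => trivial, fun _ a ha => absurd ha (Set.notMem_empty a)⟩
  · constructor
    · intro h
      exact h _ (Set.mem_singleton _)
    · intro h a ha
      rw [Set.mem_singleton_iff.1 ha]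
      exact h

/-- The relation on pairs. -/
def relPr (𝔸 : Str σ V) (M : ℕ) (s : Sym σ M)
    (P : Fin (arP σ M s.1) × Fin (arP σ M s.1) → Fin 2 → V) : Prop :=
  ∃ x : Fin (arP σ M s.1) → V, relP 𝔸 M s.1 x ∧ (∀ a b, s.2 a = s.2 b → x a = x b) ∧
    ∀ a b, P (a, b) = ![x a, x b]

/-- Its image. -/
def relPt (𝔸 : Str σ V) (M : ℕ) (c : V → V → X) (s : Sym σ M)
    (t : Fin (arP σ M s.1) × Fin (arP σ M s.1) → X) : Prop :=
  ∃ x : Fin (arP σ M s.1) → V, relP 𝔸 M s.1 x ∧ (∀ a b, s.2 a = s.2 b → x a = x b) ∧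
    ∀ a b, t (a, b) = c (x a) (x b)

theorem relPr_pp (𝔸 : Str σ V) (M : ℕ) (s : Sym σ M) :
    PPDefinable 𝔸 {z : (Fin (arP σ M s.1) × Fin (arP σ M s.1)) × Fin 2 → V |
      relPr 𝔸 M s (fun p i => z (p, i))} := by
  classical
  obtain ⟨o, π⟩ := s
  let Y : Type := Fin (arP σ M o)
  let P : Type := (Y × Y) × Fin 2
  let Φ : Set (Atom σ (P ⊕ Y)) := relAt σ M P o ∪
    ((fun ab : Y × Y => (Atom.eq (Sum.inr ab.1) (Sum.inr ab.2) : Atom σ (P ⊕ Y))) ''
        {ab | π ab.1 = π ab.2} ∪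
      (Set.range (fun ab : Y × Y => (Atom.eq (Sum.inl (ab, 0)) (Sum.inr ab.1) :
          Atom σ (P ⊕ Y))) ∪
        Set.range (fun ab : Y × Y => (Atom.eq (Sum.inl (ab, 1)) (Sum.inr ab.2) :
          Atom σ (P ⊕ Y)))))
  have hΦ : Φ.Finite := (relAt_finite M P o).union (((Set.toFinite _).image _).union
    ((Set.finite_range _).union (Set.finite_range _)))
  have h1 := ppDefinable_of_finite (𝔸 := 𝔸) Φ hΦ
  have h2 : {z : P → V | relPr 𝔸 M ⟨o, π⟩ (fun p i => z (p, i))} =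
      {x : P → V | ∃ y : Y → V, ∀ a ∈ Φ, a.Holds 𝔸 (Sum.elim x y)} := by
    ext z
    constructor
    · rintro ⟨x, hx1, hx2, hx3⟩
      refine ⟨x, ?_⟩
      rintro a (ha | ha | ha | ha)
      · exact (relAt_holds 𝔸 M P o z x).2 hx1 a ha
      · obtain ⟨ab, hab, rfl⟩ := ha
        exact hx2 ab.1 ab.2 hab
      · obtain ⟨ab, rfl⟩ := ha
        exact congrFun (hx3 ab.1 ab.2) 0
      · obtain ⟨ab, rfl⟩ := ha
        exact congrFun (hx3 ab.1 ab.2) 1
    · rintro ⟨x, hx⟩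
      refine ⟨x, ?_, ?_, ?_⟩
      · exact (relAt_holds 𝔸 M P o z x).1 fun a ha => hx a (Or.inl ha)
      · intro a b hab
        exact hx _ (Or.inr (Or.inl ⟨(a, b), hab, rfl⟩))
      · intro a b
        funext i
        have e0 : z ((a, b), 0) = x a :=
          hx _ (Or.inr (Or.inr (Or.inl ⟨(a, b), rfl⟩)))
        have e1 : z ((a, b), 1) = x b :=
          hx _ (Or.inr (Or.inr (Or.inr ⟨(a, b), rfl⟩)))
        fin_cases i
        · exact e0
        · exact e1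
  change PPDefinable 𝔸 {z : P → V | relPr 𝔸 M ⟨o, π⟩ (fun p i => z (p, i))}
  rw [h2]
  exact h1

/-- a map from `Fin m` to itself with the same kernel -/
theorem exists_kernel {m k : ℕ} (τ : Fin m → Fin k) :
    ∃ π : Fin m → Fin m, ∀ a b, π a = π b ↔ τ a = τ b := by
  have key : ∀ (t t' : Fin k) (h : ∃ b, τ b = t) (h' : ∃ b, τ b = t'), t = t' →
      h.choose = h'.choose := by
    rintro t _ h h' rfl
    rfl
  refine ⟨fun a => (⟨a, rfl⟩ : ∃ b, τ b = τ a).choose, fun a b => ⟨fun h => ?_, fun h => ?_⟩⟩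
  · rw [← (⟨a, rfl⟩ : ∃ b, τ b = τ a).choose_spec, ← (⟨b, rfl⟩ : ∃ c, τ c = τ b).choose_spec]
    exact congrArg τ h
  · exact key _ _ _ _ h

theorem pf_POW : T_POW := by
  classical
  intro σ V X 𝔸 M c hV hne hX hol hK
  by_contra hcon
  apply hK
  have hVc : Countable V := hV
  let ℙ := strOn (relPr 𝔸 M)
  let 𝕋 := strOn (relPt 𝔸 M c)
  have hP : PPPower 𝔸 2 ℙ := pppower_strOn _ (relPr_pp 𝔸 M)
  refine Pool.Agent.H51.SF.pf_TR _ _ V 𝔸 2 ℙ (by norm_num) hP ?_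
  refine Pool.Agent.H53.FC.K3_of_no_olsak (𝔸 := ℙ) (𝕋 := 𝕋) inferInstance
    (Pool.Agent.H81.SF.pf_PO _ _ V 𝔸 2 ℙ hP hol) ⟨fun P => c (P 0) (P 1), ?_⟩ ?_
  · refine (hom_strOn _ _ _).2 ?_
    rintro s P ⟨x, hx1, hx2, hx3⟩
    refine ⟨x, hx1, hx2, fun a b => ?_⟩
    change c (P (a, b) 0) (P (a, b) 1) = _
    rw [hx3 a b]
    rfl
  · intro h0 hpoly ho
    apply hcon
    have hp := (poly_strOn _ _ _).1 hpoly
    refine ⟨fun v w => h0 (fun l => ![v l, w l]), ?_, ?_⟩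
    · intro s k τ v hv hker
      obtain ⟨π, hπ⟩ := exists_kernel τ
      obtain ⟨x, hx1, hx2, hx3⟩ := hp ⟨s, π⟩
        (fun l ab => ![v ab.1 l, v ab.2 l]) (fun l => ⟨fun a => v a l, hv l,
          fun a b hab => congrFun (hker a b ((hπ a b).1 hab)) l, fun a b => rfl⟩)
      exact ⟨x, hx1, fun a b hab => hx2 a b ((hπ a b).2 hab), fun a b => (hx3 a b).symm⟩
    · intro r x y x' y'
      have key : ∀ r : Fin 3, (fun l => ![pat r x y l, pat r x' y' l]) =
          pat r ![x, x'] ![y, y'] := by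
        intro r
        funext l
        fin_cases r <;> fin_cases l <;> rfl
      change h0 (fun l => ![pat r x y l, pat r x' y' l]) =
        h0 (fun l => ![pat 0 x y l, pat 0 x' y' l])
      rw [key r, key 0]
      exact ols_pat ho r _ _

end Pool.Agent.H68.GC
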