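import Pool.Agent.H53.GC.Targets

/-!
# Polymorphisms of structures indexed by finite types
-/

set_option autoImplicit false

namespace Pool.Agent.H68.GC

open Pool.Agent.H68.BP Pool.Agent.H58.SF Pool.Agent.H53.GC

variable {S : Type} {Ar : S → Type} [Finite S] [∀ s, Finite (Ar s)] {Y Y' : Type}

/-- Homomorphisms of structures indexed by finite types. -/
theorem hom_strOn (R : (s : S) → (Ar s → Y) → Prop) (R' : (s : S) → (Ar s → Y') → Prop)
    (f : Y → Y') :
    IsHom (strOn R) (strOn R') f ↔
      ∀ (s : S) (x : Ar s → Y), R s x → R' s (fun p => f (x p)) := by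
  constructor
  · intro h s x hx
    obtain ⟨l, rfl⟩ := (Finite.equivFin S).symm.surjective s
    have h1 := h l (fun k => x ((Finite.equivFin (Ar ((Finite.equivFin S).symm l))).symm k)) (by
      change R ((Finite.equivFin S).symm l) _
      simpa only [Equiv.symm_apply_apply] using hx)
    change R' ((Finite.equivFin S).symm l) _ at h1
    simpa only [Equiv.symm_apply_apply] using h1
  · intro h l x hx
    exact h ((Finite.equivFin S).symm l)
      (fun p => x (Finite.equivFin (Ar ((Finite.equivFin S).symm l)) p)) hx

/-- Polymorphisms of structures indexed by finite types. -/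
theorem poly_strOn {I : Type} (R : (s : S) → (Ar s → Y) → Prop)
    (R' : (s : S) → (Ar s → Y') → Prop) (f : (I → Y) → Y') :
    IsPoly (strOn R) (strOn R') f ↔
      ∀ (s : S) (x : I → Ar s → Y), (∀ i, R s (x i)) → R' s (fun p => f (fun i => x i p)) := by
  constructor
  · intro h s x hx
    obtain ⟨l, rfl⟩ := (Finite.equivFin S).symm.surjective s
    have h1 := h l
      (fun i k => x i ((Finite.equivFin (Ar ((Finite.equivFin S).symm l))).symm k)) (fun i => by
        change R ((Finite.equivFin S).symm l) _
        simpa only [Equiv.symm_apply_apply] using hx i)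
    change R' ((Finite.equivFin S).symm l) _ at h1
    simpa only [Equiv.symm_apply_apply] using h1
  · intro h l x hx
    exact h ((Finite.equivFin S).symm l)
      (fun i p => x i (Finite.equivFin (Ar ((Finite.equivFin S).symm l)) p)) hx

end Pool.Agent.H68.GC
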