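import Pool.Agent.H68.GC.OLF0
import Pool.Agent.H53.FC.Main

/-!
# Olšák families from the absence of a selection
-/

set_option autoImplicit false

namespace Pool.Agent.H68.GC

open Pool.Agent.H68.BP Pool.Agent.H58.SF Pool.Agent.H53.GC Pool.Agent.H53.RG

variable {𝓔 X 𝓛 : Type} [Finite 𝓔] [Finite X] [Finite 𝓛]

/-- The structure on `𝓔 → X` whose polymorphisms are the families preserving `R`. -/
noncomputable def famStr (R : 𝓛 → (𝓔 → X) → Prop) :
    Str (sigOf (𝓛 ⊕ 𝓔) (fun _ => Fin 2)) (𝓔 → X) :=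
  strOn (fun s x => Sum.elim (fun l => R l (x 0)) (fun e => x 0 e = x 1 e) s)

omit [Finite X] in
theorem poly_famStr (R : 𝓛 → (𝓔 → X) → Prop) {I : Type} (f : (I → 𝓔 → X) → 𝓔 → X) :
    IsPoly (famStr R) (famStr R) f ↔
      (∀ l (p : I → 𝓔 → X), (∀ i, R l (p i)) → R l (f p)) ∧
      ∀ e (p q : I → 𝓔 → X), (∀ i, p i e = q i e) → f p e = f q e := by
  unfold famStr
  rw [poly_strOn]
  constructor
  · intro h
    refine ⟨fun l p hp => ?_, fun e p q hpq => ?_⟩
    · exact h (Sum.inl l) (fun i _ => p i) hp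
    · exact h (Sum.inr e) (fun i k => if k = 0 then p i else q i) (fun i => hpq i)
  · rintro ⟨h1, h2⟩ s x hx
    rcases s with l | e
    · exact h1 l (fun i => x i 0) hx
    · exact h2 e (fun i => x i 0) (fun i => x i 1) hx

omit [Finite X] in
theorem poly_of_fam (R : 𝓛 → (𝓔 → X) → Prop) {I : Type} {F : 𝓔 → (I → X) → X}
    (hF : Fam R I F) :
    IsPoly (famStr R) (famStr R) (fun p e => F e (fun i => p i e)) := by
  rw [poly_famStr]
  refine ⟨fun l p hp => hF l p hp, fun e p q hpq => ?_⟩
  have h1 : (fun i => p i e) = fun i => q i e := funext hpq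
  change F e (fun i => p i e) = F e (fun i => q i e)
  rw [h1]

theorem oligo_finite {σ : Sig} {A : Type} [Finite A] (𝔸 : Str σ A) : Oligo 𝔸 := by
  classical
  intro n
  have := Fintype.ofFinite A
  exact ⟨Finset.univ, fun x => ⟨x, Finset.mem_univ _, Equiv.refl A, fun _ _ => Iff.rfl,
    fun _ => rfl⟩⟩

theorem pf_OLF (hS : T_SEL) : T_OLF := by
  classical
  intro 𝓔 X 𝓛 _ _ _ _ R hno
  by_contra hcon
  apply hno
  have hK : PPConstructsK3 (famStr R) := by
    refine Pool.Agent.H53.FC.K3_of_no_olsak (𝔸 := famStr R) (𝕋 := famStr R)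
      (Finite.to_countable) (oligo_finite _) ⟨id, fun _ _ hx => hx⟩ ?_
    intro h hh ho
    apply hcon
    rw [poly_famStr] at hh
    obtain ⟨h1, h2⟩ := hh
    refine ⟨fun e w => h (fun i _ => w i) e, ?_, ?_⟩
    · intro l p hp
      have h3 : (fun e => h (fun i _ => p i e) e) = h p := by
        funext e
        exact h2 e _ _ fun i => rfl
      rw [h3]
      exact h1 l p hp
    · intro e x y r
      obtain ⟨e1, e2⟩ := ho (fun _ => x) (fun _ => y)
      have key : ∀ r : Fin 3, h (fun i _ => pat r x y i) =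
          h (fun i _ => pat 0 x y i) := by
        intro r
        have h0 : (fun (i : Fin 6) (_ : 𝓔) => pat 0 x y i) =
            ![fun _ => x, fun _ => x, fun _ => y, fun _ => y, fun _ => y, fun _ => x] := by
          funext i
          fin_cases i <;> rfl
        have h3 : (fun (i : Fin 6) (_ : 𝓔) => pat 1 x y i) =
            ![fun _ => x, fun _ => y, fun _ => x, fun _ => y, fun _ => x, fun _ => y] := by
          funext i
          fin_cases i <;> rfl
        have h4 : (fun (i : Fin 6) (_ : 𝓔) => pat 2 x y i) =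
            ![fun _ => y, fun _ => x, fun _ => x, fun _ => x, fun _ => y, fun _ => y] := by
          funext i
          fin_cases i <;> rfl
        have hr : r = 0 ∨ r = 1 ∨ r = 2 := by omega
        rcases hr with rfl | rfl | rfl
        · rfl
        · rw [h3, h0, e1]
        · rw [h4, h0, e1, e2]
      exact congrFun (key r) e
  obtain ⟨Z, hZ1, hZ2⟩ := hS _ _ (famStr R) hK
  refine ⟨fun I F i => Z I (fun p e => F e (fun i => p i e)) i, ?_, ?_⟩
  · intro I _ F hF
    exact hZ1 I _ (poly_of_fam R hF)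
  · intro I J _ _ π F i j hF h1 h2
    exact hZ2 I J π _ i j (poly_of_fam R hF) h1 h2

end Pool.Agent.H68.GC
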